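import Mathlib
import Pool.Agent.H624R3.CP.Stmts

/-!
# Project COVPROD, task NUM
-/

set_option autoImplicit false

open MeasureTheory Real

namespace Pool.Agent.H271CP

open Pool.Agent.H624R3.CP

/-- `Γ (y + 1) ≥ (y / e) ^ y`. -/
theorem gamma_lower (y : ℝ) (hy : 0 < y) : y ^ y * exp (-y) ≤ Gamma (y + 1) := by
  have hy1 : 0 < y + 1 := by linarith
  rw [Real.Gamma_eq_integral hy1]
  have hint := Real.GammaIntegral_convergent hy1
  have h1 : ∫ t in Set.Ioi y, exp (-t) * t ^ (y + 1 - 1) ≤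
      ∫ t in Set.Ioi 0, exp (-t) * t ^ (y + 1 - 1) := by
    refine setIntegral_mono_set hint ?_ ?_
    · refine (ae_restrict_iff' measurableSet_Ioi).mpr (Filter.Eventually.of_forall fun t ht => ?_)
      have ht : 0 < t := ht
      change 0 ≤ exp (-t) * t ^ (y + 1 - 1)
      positivity
    · exact (Set.Ioi_subset_Ioi hy.le).eventuallyLE
  refine le_trans ?_ h1
  have h2 : ∫ t in Set.Ioi y, exp (-t) * y ^ y = y ^ y * exp (-y) := by
    rw [integral_mul_const, integral_exp_neg_Ioi, mul_comm]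
  rw [← h2]
  refine setIntegral_mono_on ?_ (hint.mono_set (Set.Ioi_subset_Ioi hy.le)) measurableSet_Ioi ?_
  · exact (integrableOn_exp_neg_Ioi y).mul_const _
  · intro t ht
    have ht : y < t := ht
    rw [add_sub_cancel_right]
    exact mul_le_mul_of_nonneg_left (rpow_le_rpow hy.le ht.le hy.le) (exp_pos _).le

theorem factorial_upper (d : ℕ) (hd : 1 ≤ d) :
    (d.factorial : ℝ) ≤ exp 1 * √d * ((d : ℝ) / exp 1) ^ d := by
  obtain ⟨m, rfl⟩ : ∃ m, d = m + 1 := ⟨d - 1, by omega⟩
  have h1 : Stirling.stirlingSeq (m + 1) ≤ Stirling.stirlingSeq 1 :=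
    Stirling.stirlingSeq'_antitone (Nat.zero_le m)
  rw [Stirling.stirlingSeq_one] at h1
  unfold Stirling.stirlingSeq at h1
  have hpos : (0 : ℝ) < ((m + 1 : ℕ) : ℝ) := by positivity
  have h2 : 0 < √(2 * ((m + 1 : ℕ) : ℝ)) * (((m + 1 : ℕ) : ℝ) / exp 1) ^ (m + 1) := by positivity
  rw [div_le_iff₀ h2] at h1
  refine h1.trans (le_of_eq ?_)
  rw [Real.sqrt_mul (by norm_num) ((m + 1 : ℕ) : ℝ)]
  have h3 : √(2 : ℝ) ≠ 0 := by positivity
  field_simp

theorem ball_le (d : ℕ) (hd : 1 ≤ d) :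
    π ^ ((d : ℝ) / 2) / Gamma ((d : ℝ) / 2 + 1) ≤ 1 / Rd d ^ d := by
  have hd0 : (0 : ℝ) < d := by exact_mod_cast hd
  set y : ℝ := (d : ℝ) / 2 with hy
  have hy0 : 0 < y := by positivity
  have h1 := gamma_lower y hy0
  have h2 : 0 < y ^ y * exp (-y) := by positivity
  refine (div_le_div_of_nonneg_left (by positivity) h2 h1).trans (le_of_eq ?_)
  have hRnn : 0 ≤ Rd d := Real.sqrt_nonneg _
  have hx : Rd d ^ d = (y / (π * exp 1)) ^ y := by
    have h3 : Rd d ^ d = (Rd d ^ (2 : ℝ)) ^ y := by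
      rw [← Real.rpow_natCast (Rd d) d, ← Real.rpow_mul hRnn]
      congr 1
      rw [hy]
      ring
    rw [h3]
    congr 1
    unfold Rd
    rw [Real.rpow_two, Real.sq_sqrt (by positivity), hy]
    field_simp
  rw [hx, Real.div_rpow hy0.le (by positivity), Real.mul_rpow pi_pos.le (exp_pos _).le,
    ← Real.exp_mul, one_mul, Real.exp_neg]
  have h4 : y ^ y ≠ 0 := by positivity
  have h5 : exp y ≠ 0 := (exp_pos _).ne'
  field_simp

theorem prod_fact (n : ℕ) : ∏ i ∈ Finset.Icc 1 n, (i : ℝ) = n.factorial := by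
  induction n with
  | zero => simp
  | succ n ih =>
    rw [Finset.prod_Icc_succ_top (by omega), ih, Nat.factorial_succ]
    push_cast
    ring

theorem prod_rr (d : ℕ) (hd : 1 ≤ d) : ∏ i ∈ Finset.Icc 1 d, rr d i =
    ((1002 / 1000) / (4 * π * Rd d) * (1000 / 999)) ^ d * d.factorial *
      (999 / 1100) ^ (d / 10) *
      (((d / 1000 + 1 : ℕ) : ℝ) ^ (d / 1000) / (d / 1000).factorial) := by
  have hd0 : (0 : ℝ) < d := by exact_mod_cast hd
  have hR : 0 < Rd d := by unfold Rd; positivity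
  have h1 : ∀ i ∈ Finset.Icc 1 d, rr d i =
      (((1002 / 1000) / (4 * π * Rd d) * (1000 / 999)) * (i : ℝ)) *
        (if 10 * i ≤ d then (999 / 1100 : ℝ) else 1) *
        (if i ≤ d / 1000 then ((d / 1000 + 1 : ℕ) : ℝ) / i else 1) := by
    intro i hi
    rw [Finset.mem_Icc] at hi
    have hi0 : (i : ℝ) ≠ 0 := by
      have : (0 : ℝ) < i := by exact_mod_cast hi.1
      exact this.ne'
    unfold rr
    by_cases h10 : 10 * i ≤ d
    · rw [if_pos h10, if_pos h10]
      by_cases hN : i ≤ d / 1000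
      · rw [if_pos hN, max_eq_right (by omega)]
        field_simp
        ring
      · rw [if_neg hN, max_eq_left (by omega)]
        field_simp
        ring
    · rw [if_neg h10, if_neg h10, if_neg (by omega)]
      field_simp
  rw [Finset.prod_congr rfl h1, Finset.prod_mul_distrib, Finset.prod_mul_distrib,
    Finset.prod_mul_distrib, Finset.prod_const, Nat.card_Icc, Nat.add_sub_cancel]
  have h2 : ∏ i ∈ Finset.Icc 1 d, (i : ℝ) = d.factorial := prod_fact d
  have h3 : ∏ i ∈ Finset.Icc 1 d, (if 10 * i ≤ d then (999 / 1100 : ℝ) else 1) =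
      (999 / 1100) ^ (d / 10) := by
    rw [← Finset.prod_filter, Finset.prod_const]
    congr 1
    have : (Finset.Icc 1 d).filter (fun i => 10 * i ≤ d) = Finset.Icc 1 (d / 10) := by
      ext i
      simp only [Finset.mem_filter, Finset.mem_Icc]
      omega
    rw [this, Nat.card_Icc, Nat.add_sub_cancel]
  have h4 : ∏ i ∈ Finset.Icc 1 d, (if i ≤ d / 1000 then ((d / 1000 + 1 : ℕ) : ℝ) / i else 1) =
      ((d / 1000 + 1 : ℕ) : ℝ) ^ (d / 1000) / (d / 1000).factorial := by
    rw [← Finset.prod_filter]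
    have : (Finset.Icc 1 d).filter (fun i => i ≤ d / 1000) = Finset.Icc 1 (d / 1000) := by
      ext i
      simp only [Finset.mem_filter, Finset.mem_Icc]
      omega
    rw [this, Finset.prod_div_distrib, Finset.prod_const, Nat.card_Icc, Nat.add_sub_cancel,
      prod_fact]
  rw [h2, h3, h4]

theorem taskNUM : TaskNUM := by
  refine ⟨100, fun d hd => ?_⟩
  have hd1 : 1 ≤ d := by omega
  have hd0 : (0 : ℝ) < d := by exact_mod_cast hd1
  have hR : 0 < Rd d := by unfold Rd; positivity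
  set K := d / 10 with hK
  set N := d / 1000 with hN
  rw [prod_rr d hd1, ← hK, ← hN]
  have hexp1 := Real.exp_pos 1
  -- the main power
  have hmain : ((1002 / 1000) / (4 * π * Rd d) * (1000 / 999)) ^ d * d.factorial * (1 / Rd d ^ d) ≤
      exp 1 * √d * (1002 / 999) ^ d / 2 ^ d := by
    have h1 := factorial_upper d hd1
    have h2 : 0 ≤ ((1002 / 1000) / (4 * π * Rd d) * (1000 / 999)) ^ d := by positivity
    have h3 : 0 ≤ (1 / Rd d ^ d) := by positivity
    refine (mul_le_mul_of_nonneg_right (mul_le_mul_of_nonneg_left h1 h2) h3).trans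
      (le_of_eq ?_)
    have hR2 : Rd d * Rd d = (d : ℝ) / (2 * π * exp 1) := by
      unfold Rd
      exact Real.mul_self_sqrt (by positivity)
    have h4 : ((1002 / 1000) / (4 * π * Rd d) * (1000 / 999)) ^ d *
        (exp 1 * √d * ((d : ℝ) / exp 1) ^ d) * (1 / Rd d ^ d) =
        exp 1 * √d * (((1002 / 1000) / (4 * π * Rd d) * (1000 / 999)) *
          ((d : ℝ) / exp 1) / Rd d) ^ d := by
      have gen : ∀ c e r A : ℝ, c ^ d * (A * e ^ d) * (1 / r ^ d) = A * (c * e / r) ^ d := by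
        intro c e r A
        rw [div_pow, mul_pow]
        ring
      exact gen _ _ _ _
    have h5 : ((1002 / 1000) / (4 * π * Rd d) * (1000 / 999)) * ((d : ℝ) / exp 1) / Rd d =
        (1002 / 999) / 2 := by
      have h6 : ((1002 / 1000) / (4 * π * Rd d) * (1000 / 999)) * ((d : ℝ) / exp 1) / Rd d =
        (1002 / 999) * d / (4 * π * exp 1 * (Rd d * Rd d)) := by
        field_simp
      rw [h6, hR2]
      field_simp
      norm_num
    rw [h4, h5, div_pow]
    ring
  have hN1 : (((N + 1 : ℕ) : ℝ) ^ N / N.factorial) ≤ exp ((N : ℝ) + 1) := by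
    have := Real.pow_div_factorial_le_exp (((N + 1 : ℕ) : ℝ)) (by positivity) N
    refine this.trans (le_of_eq ?_)
    push_cast
    rfl
  have hball := ball_le d hd1
  have hG : 0 < Gamma ((d : ℝ) / 2 + 1) := Real.Gamma_pos_of_pos (by positivity)
  -- combination
  obtain ⟨q, hq⟩ : ∃ q : ℝ, q = exp (1 / 1000) * (1002 / 999) := ⟨_, rfl⟩
  have hq1 : 1 ≤ q := by
    rw [hq]
    have := Real.one_le_exp (x := 1 / 1000) (by norm_num)
    nlinarith
  have hq10 : q ^ 10 * (999 / 1100) ≤ 1 := by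
    rw [hq, mul_pow, ← Real.exp_nat_mul]
    have h1 : exp (((10 : ℕ) : ℝ) * (1 / 1000)) ≤ 1 / (1 - 1 / 100) := by
      have : ((10 : ℕ) : ℝ) * (1 / 1000) = 1 / 100 := by norm_num
      rw [this]
      exact Real.exp_bound_div_one_sub_of_interval (by norm_num) (by norm_num)
    have h2 : (0 : ℝ) ≤ (1002 / 999) ^ 10 * (999 / 1100) := by positivity
    calc exp (((10 : ℕ) : ℝ) * (1 / 1000)) * (1002 / 999) ^ 10 * (999 / 1100)
        = exp (((10 : ℕ) : ℝ) * (1 / 1000)) * ((1002 / 999) ^ 10 * (999 / 1100)) := by ring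
      _ ≤ 1 / (1 - 1 / 100) * ((1002 / 999) ^ 10 * (999 / 1100)) :=
          mul_le_mul_of_nonneg_right h1 h2
      _ ≤ 1 := by norm_num
  have hpow : (1002 / 999 : ℝ) ^ d * (999 / 1100) ^ K * exp (N : ℝ) ≤ 1100 / 999 := by
    have h1 : exp (N : ℝ) ≤ exp (1 / 1000) ^ d := by
      rw [← Real.exp_nat_mul]
      apply Real.exp_le_exp.mpr
      have : (1000 * N : ℕ) ≤ d := by omega
      have h2 : (1000 : ℝ) * N ≤ d := by exact_mod_cast this
      linarith
    have hds : d = 10 * K + d % 10 := by omega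
    have hs : d % 10 ≤ 10 := by omega
    calc (1002 / 999 : ℝ) ^ d * (999 / 1100) ^ K * exp (N : ℝ)
        ≤ (1002 / 999 : ℝ) ^ d * (999 / 1100) ^ K * exp (1 / 1000) ^ d :=
          mul_le_mul_of_nonneg_left h1 (by positivity)
      _ = q ^ d * (999 / 1100) ^ K := by rw [hq, mul_pow]; ring
      _ = (q ^ 10 * (999 / 1100)) ^ K * q ^ (d % 10) := by
          have e1 : q ^ d = (q ^ 10) ^ K * q ^ (d % 10) := by
            rw [← pow_mul, ← pow_add, ← hds]
          rw [e1, mul_pow]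
          ring
      _ ≤ 1 * q ^ 10 := by
          refine mul_le_mul ?_ (pow_le_pow_right₀ hq1 hs) (by positivity) (by norm_num)
          exact pow_le_one₀ (by positivity) hq10
      _ ≤ 1100 / 999 := by
          rw [one_mul]
          linarith
  have hsq : exp 1 * exp 1 * (1100 / 999) * √d < (d : ℝ) + 1 := by
    have he : exp 1 < 2.7182818286 := Real.exp_one_lt_d9
    have h1 : exp 1 * exp 1 * (1100 / 999) ≤ 10 := by nlinarith
    have h2 : (10 : ℝ) ≤ √d := by
      apply Real.le_sqrt_of_sq_le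
      have : (100 : ℝ) ≤ d := by exact_mod_cast hd
      linarith
    have h3 : √(d : ℝ) * √d = d := Real.mul_self_sqrt hd0.le
    have h4 : 0 ≤ √(d : ℝ) := Real.sqrt_nonneg _
    nlinarith
  have h2d : (0 : ℝ) < 2 ^ d := by positivity
  calc ((1002 / 1000) / (4 * π * Rd d) * (1000 / 999)) ^ d * d.factorial * (999 / 1100) ^ K *
        (((N + 1 : ℕ) : ℝ) ^ N / N.factorial) * (π ^ ((d : ℝ) / 2) / Gamma ((d : ℝ) / 2 + 1))
      ≤ ((1002 / 1000) / (4 * π * Rd d) * (1000 / 999)) ^ d * d.factorial * (999 / 1100) ^ K *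
        exp ((N : ℝ) + 1) * (1 / Rd d ^ d) := by
        refine mul_le_mul (mul_le_mul_of_nonneg_left hN1 (by positivity)) hball (by positivity)
          (by positivity)
    _ = (((1002 / 1000) / (4 * π * Rd d) * (1000 / 999)) ^ d * d.factorial * (1 / Rd d ^ d)) *
        ((999 / 1100) ^ K * exp ((N : ℝ) + 1)) := by ring
    _ ≤ (exp 1 * √d * (1002 / 999) ^ d / 2 ^ d) * ((999 / 1100) ^ K * exp ((N : ℝ) + 1)) :=
        mul_le_mul_of_nonneg_right hmain (by positivity)
    _ = (exp 1 * exp 1 * √d * ((1002 / 999) ^ d * (999 / 1100) ^ K * exp (N : ℝ))) / 2 ^ d := by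
        rw [Real.exp_add]
        ring
    _ ≤ (exp 1 * exp 1 * √d * (1100 / 999)) / 2 ^ d := by
        refine div_le_div_of_nonneg_right (mul_le_mul_of_nonneg_left hpow (by positivity)) h2d.le
    _ < ((d : ℝ) + 1) / 2 ^ d := by
        refine div_lt_div_of_pos_right ?_ h2d
        linarith

end Pool.Agent.H271CP
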